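import Pool.Agent.Helper98.Lang.Defs
import Pool.Agent.Helper31.Tot.MP

/-!
# Mertens type bounds (packet P9 MER of MP_c307ca_nt)
-/

set_option autoImplicit false

open Finset Filter Topology

namespace Pool.Agent.Helper87.Lang

open Pool.Agent.Helper98.Lang

theorem mem_pr {a b p : ℕ} : p ∈ pr a b ↔ (a < p ∧ p ≤ b) ∧ p.Prime := by
  simp [pr, Finset.mem_filter, Finset.mem_Ioc]

theorem V_le (y : ℕ) : V y ≤ Real.exp (Helper56.ax (y : ℝ)) := by
  rw [Pool.Agent.Helper31.Tot.ax_nat, Real.exp_sum]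
  have h0 : ∏ k ∈ Ioc 0 y, Real.exp (Helper56.al k)
      = ∏ k ∈ Ioc 0 y, (if k.Prime then Real.exp (Helper56.al k) else 1) := by
    apply Finset.prod_congr rfl
    intro k _
    split_ifs with hk
    · rfl
    · simp [Helper56.al, hk]
  rw [h0, ← Finset.prod_filter]
  unfold V pr
  apply Finset.prod_le_prod
  · intro p _
    positivity
  · intro p hp
    have hp' := (Finset.mem_filter.1 hp).2
    have h2 : (2 : ℝ) ≤ p := by exact_mod_cast hp'.two_le
    have h1 : (0 : ℝ) < 1 - 1 / p := by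
      rw [sub_pos, div_lt_one (by linarith)]
      linarith
    simp only [Helper56.al, if_pos hp']
    rw [Real.exp_neg, Real.exp_log h1, le_inv_comm₀ (by positivity) h1, ← one_div,
      le_div_iff₀ (by positivity)]
    have : (0 : ℝ) ≤ 1 / p * (1 / p) := by positivity
    nlinarith

theorem V_pos (y : ℕ) : 0 < V y := by
  unfold V
  apply Finset.prod_pos
  intro p _
  positivity

theorem V_mul {a b : ℕ} (h : a ≤ b) : V b = V a * ∏ p ∈ pr a b, (1 + 1 / (p : ℝ)) := by
  unfold V pr
  rw [Finset.prod_filter, Finset.prod_filter, Finset.prod_filter,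
    Finset.prod_Ioc_consecutive _ (Nat.zero_le a) h]

theorem part4 (a b : ℕ) (h : a ≤ b) :
    ∑ p ∈ pr a b, 1 / (p : ℝ) ≤ 2 * Real.log (V b / V a) := by
  have h1 : V b / V a = ∏ p ∈ pr a b, (1 + 1 / (p : ℝ)) := by
    rw [V_mul h, mul_comm, mul_div_assoc, div_self (V_pos a).ne', mul_one]
  rw [h1, Real.log_prod, Finset.mul_sum]
  · apply Finset.sum_le_sum
    intro p hp
    have hp' := (mem_pr.1 hp).2
    have h2 : (2 : ℝ) ≤ p := by exact_mod_cast hp'.two_le
    have ht : (0 : ℝ) < 1 / p := by positivity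
    have ht1 : (1 : ℝ) / p ≤ 1 := by
      rw [div_le_one (by linarith)]
      linarith
    have h3 := Real.one_sub_inv_le_log_of_pos (show (0 : ℝ) < 1 + 1 / p by positivity)
    have h4 : (1 : ℝ) / p / 2 ≤ 1 - (1 + 1 / (p : ℝ))⁻¹ := by
      set t : ℝ := 1 / p with htd
      have : 1 - (1 + t)⁻¹ = t / (1 + t) := by
        field_simp
        ring
      rw [this]
      apply div_le_div_of_nonneg_left ht.le (by positivity) (by linarith)
    linarith
  · intro p _
    positivity

theorem theta_eq (x : ℝ) : Chebyshev.theta x = ∑ p ∈ pr 0 ⌊x⌋₊, Real.log p := by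
  rfl

theorem sum_dy (n : ℕ) : ∑ p ∈ pr 0 (2 ^ n), Real.log p / p ≤ 2 * Real.log 4 * n := by
  induction n with
  | zero =>
    have : pr 0 (2 ^ 0) = ∅ := by
      ext p
      simp only [mem_pr, Finset.notMem_empty, iff_false]
      rintro ⟨⟨_, h⟩, hp⟩
      have := hp.two_le
      simp at h
      omega
    rw [this]
    simp
  | succ n ih =>
    have hsplit : ∑ p ∈ pr 0 (2 ^ (n + 1)), Real.log p / p
        = ∑ p ∈ pr 0 (2 ^ n), Real.log p / p + ∑ p ∈ pr (2 ^ n) (2 ^ (n + 1)), Real.log p / p := by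
      unfold pr
      rw [Finset.sum_filter, Finset.sum_filter, Finset.sum_filter,
        Finset.sum_Ioc_consecutive _ (Nat.zero_le _)
          (Nat.pow_le_pow_right (by norm_num) (Nat.le_succ n))]
    rw [hsplit]
    have hblock : ∑ p ∈ pr (2 ^ n) (2 ^ (n + 1)), Real.log p / p ≤ 2 * Real.log 4 := by
      have hb1 : ∑ p ∈ pr (2 ^ n) (2 ^ (n + 1)), Real.log p / p
          ≤ ∑ p ∈ pr 0 (2 ^ (n + 1)), Real.log p / 2 ^ n := by
        refine (Finset.sum_le_sum (g := fun p : ℕ => Real.log p / 2 ^ n) ?_).trans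
          (Finset.sum_le_sum_of_subset_of_nonneg ?_ ?_)
        · intro p hp
          have hp' := mem_pr.1 hp
          have h2 : ((2 : ℝ) ^ n) ≤ p := by exact_mod_cast hp'.1.1.le
          have hp1 : (1 : ℝ) ≤ p := by exact_mod_cast hp'.2.one_lt.le
          exact div_le_div_of_nonneg_left (Real.log_nonneg hp1) (by positivity) h2
        · intro p hp
          have hp' := mem_pr.1 hp
          exact mem_pr.2 ⟨⟨hp'.2.pos, hp'.1.2⟩, hp'.2⟩
        · intro p hp _
          have hp' := mem_pr.1 hp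
          have hp1 : (1 : ℝ) ≤ p := by exact_mod_cast hp'.2.one_lt.le
          have := Real.log_nonneg hp1
          positivity
      refine hb1.trans ?_
      rw [← Finset.sum_div]
      have hth := Chebyshev.theta_le_log4_mul_x (show (0 : ℝ) ≤ ((2 ^ (n + 1) : ℕ) : ℝ) by positivity)
      rw [theta_eq, Nat.floor_natCast] at hth
      rw [div_le_iff₀ (by positivity)]
      refine hth.trans (le_of_eq ?_)
      push_cast
      ring
    push_cast
    linarith

theorem part2 (y : ℕ) (hy : 2 ≤ y) :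
    ∑ p ∈ pr 0 y, Real.log p / p ≤ 8 * Real.log y := by
  have hn : y ≤ 2 ^ (Nat.clog 2 y) := Nat.le_pow_clog (by norm_num) y
  have h1 : ∑ p ∈ pr 0 y, Real.log p / p ≤ ∑ p ∈ pr 0 (2 ^ (Nat.clog 2 y)), Real.log p / p := by
    apply Finset.sum_le_sum_of_subset_of_nonneg
    · intro p hp
      have hp' := mem_pr.1 hp
      exact mem_pr.2 ⟨⟨hp'.1.1, hp'.1.2.trans hn⟩, hp'.2⟩
    · intro p hp _
      have hp' := mem_pr.1 hp
      have hp1 : (1 : ℝ) ≤ p := by exact_mod_cast hp'.2.one_lt.le
      have := Real.log_nonneg hp1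
      positivity
  have h2 := sum_dy (Nat.clog 2 y)
  have h3 : (Nat.clog 2 y : ℝ) * Real.log 2 ≤ 2 * Real.log y := by
    have hc : 2 ^ (Nat.clog 2 y).pred < y := Nat.pow_pred_clog_lt_self (by norm_num) (by omega)
    have hc1 : 1 ≤ Nat.clog 2 y := Nat.clog_pos (by norm_num) hy
    have hc2 : 2 ^ (Nat.clog 2 y) ≤ 2 * y := by
      obtain ⟨m, hm⟩ : ∃ m, Nat.clog 2 y = m + 1 := ⟨_, (Nat.succ_pred_eq_of_pos hc1).symm⟩
      rw [hm] at hc ⊢
      simp only [Nat.pred_succ] at hc
      rw [pow_succ]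
      omega
    have hc3 : ((2 : ℝ) ^ (Nat.clog 2 y)) ≤ 2 * y := by exact_mod_cast hc2
    have hc4 : Real.log ((2 : ℝ) ^ (Nat.clog 2 y)) ≤ Real.log (2 * y) :=
      Real.log_le_log (by positivity) hc3
    rw [Real.log_pow, Real.log_mul (by norm_num) (by positivity)] at hc4
    have hc5 : Real.log 2 ≤ Real.log y := Real.log_le_log (by norm_num) (by exact_mod_cast hy)
    linarith
  have h4 : Real.log 4 = 2 * Real.log 2 := by
    rw [show (4 : ℝ) = 2 ^ 2 by norm_num, Real.log_pow]
    norm_num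
  calc ∑ p ∈ pr 0 y, Real.log p / p ≤ _ := h1
    _ ≤ _ := h2
    _ = 4 * (Nat.clog 2 y * Real.log 2) := by rw [h4]; ring
    _ ≤ 4 * (2 * Real.log y) := by linarith
    _ = 8 * Real.log y := by ring

theorem part3 (a b : ℕ) (ha : 2 ≤ a) (x : ℝ) (hx : 0 < x) :
    ∑ p ∈ (pr a b).filter (fun p : ℕ => x ≤ p ∧ (p : ℝ) ≤ Real.exp 2 * x), 1 / (p : ℝ)
      ≤ (Real.log 4 * Real.exp 2) / Real.log a := by
  set y : ℝ := max x a with hy
  have ha' : (2 : ℝ) ≤ a := by exact_mod_cast ha
  have hy0 : 0 < y := lt_of_lt_of_le hx (le_max_left _ _)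
  have hla : 0 < Real.log a := Real.log_pos (by linarith)
  have h1 : ∑ p ∈ (pr a b).filter (fun p : ℕ => x ≤ p ∧ (p : ℝ) ≤ Real.exp 2 * x), 1 / (p : ℝ)
      ≤ ∑ p ∈ pr 0 ⌊Real.exp 2 * y⌋₊, Real.log p / (y * Real.log a) := by
    refine (Finset.sum_le_sum (g := fun p : ℕ => Real.log p / (y * Real.log a)) ?_).trans
          (Finset.sum_le_sum_of_subset_of_nonneg ?_ ?_)
    · intro p hp
      obtain ⟨hp1, hp2, hp3⟩ := Finset.mem_filter.1 hp
      have hp' := mem_pr.1 hp1
      have hpa : (a : ℝ) ≤ p := by exact_mod_cast hp'.1.1.le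
      have hyp : y ≤ p := max_le hp2 hpa
      have hp0 : (0 : ℝ) < p := by linarith
      have hlp : Real.log a ≤ Real.log p := Real.log_le_log (by linarith) hpa
      rw [div_le_div_iff₀ hp0 (by positivity), one_mul]
      have := mul_le_mul hyp hlp hla.le hp0.le
      linarith
    · intro p hp
      obtain ⟨hp1, hp2, hp3⟩ := Finset.mem_filter.1 hp
      have hp' := mem_pr.1 hp1
      refine mem_pr.2 ⟨⟨hp'.2.pos, ?_⟩, hp'.2⟩
      apply Nat.le_floor
      refine hp3.trans ?_
      exact mul_le_mul_of_nonneg_left (le_max_left _ _) (Real.exp_pos _).le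
    · intro p hp _
      have hp' := mem_pr.1 hp
      have hp1 : (1 : ℝ) ≤ p := by exact_mod_cast hp'.2.one_lt.le
      have := Real.log_nonneg hp1
      positivity
  refine h1.trans ?_
  rw [← Finset.sum_div, ← theta_eq, div_le_div_iff₀ (by positivity) hla]
  have hth := Chebyshev.theta_le_log4_mul_x (show (0 : ℝ) ≤ Real.exp 2 * y by positivity)
  nlinarith

theorem part5 (M : ℝ) : ∃ y : ℕ, M ≤ V y := by
  by_contra hcon
  push Not at hcon
  apply not_summable_one_div_on_primes
  have hV0 : V 0 = 1 := by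
    unfold V pr
    simp
  apply summable_of_sum_range_le (c := 2 * Real.log M)
  · intro n
    apply Set.indicator_nonneg
    intro m _
    positivity
  · intro n
    have h1 : ∑ i ∈ Finset.range n, Set.indicator {p : ℕ | p.Prime} (fun n : ℕ => (1 : ℝ) / n) i
        ≤ ∑ p ∈ pr 0 n, 1 / (p : ℝ) := by
      have : ∑ i ∈ Finset.range n, Set.indicator {p : ℕ | p.Prime} (fun n : ℕ => (1 : ℝ) / n) i
          = ∑ i ∈ (Finset.range n).filter Nat.Prime, 1 / (i : ℝ) := by
        rw [Finset.sum_filter]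
        apply Finset.sum_congr rfl
        intro i _
        simp only [Set.indicator_apply, Set.mem_setOf_eq]
      rw [this]
      apply Finset.sum_le_sum_of_subset_of_nonneg
      · intro p hp
        obtain ⟨hp1, hp2⟩ := Finset.mem_filter.1 hp
        exact mem_pr.2 ⟨⟨hp2.pos, (Finset.mem_range.1 hp1).le⟩, hp2⟩
      · intro p _ _
        positivity
    have h2 := part4 0 n (Nat.zero_le n)
    rw [hV0, div_one] at h2
    have h3 : Real.log (V n) ≤ Real.log M := Real.log_le_log (V_pos n) (hcon n).le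
    linarith

theorem mer : GMer := by
  obtain ⟨C, hC0, hC⟩ := Pool.Agent.Helper31.Tot.ax_bound
  refine ⟨max (max 8 (Real.exp C)) (Real.log 4 * Real.exp 2), ?_, ?_, ?_, ?_, part4, part5⟩
  · exact le_trans (by norm_num) ((le_max_left _ _).trans (le_max_left _ _))
  · intro y hy
    have hly : 0 < Real.log y := Real.log_pos (by exact_mod_cast (by omega : 1 < y))
    have h1 := (abs_le.1 (hC y)).2
    calc V y ≤ Real.exp (Helper56.ax (y : ℝ)) := V_le y
      _ ≤ Real.exp (C + Real.log (Real.log y)) := Real.exp_le_exp.2 (by linarith)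
      _ = Real.exp C * Real.log y := by rw [Real.exp_add, Real.exp_log hly]
      _ ≤ _ := by
        apply mul_le_mul_of_nonneg_right _ hly.le
        exact (le_max_right _ _).trans (le_max_left _ _)
  · intro y hy
    have hly : 0 < Real.log y := Real.log_pos (by exact_mod_cast (by omega : 1 < y))
    refine (part2 y hy).trans ?_
    apply mul_le_mul_of_nonneg_right _ hly.le
    exact (le_max_left _ _).trans (le_max_left _ _)
  · intro a b ha x hx
    have hla : 0 < Real.log a := Real.log_pos (by exact_mod_cast (by omega : 1 < a))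
    refine (part3 a b ha x hx).trans ?_
    apply div_le_div_of_nonneg_right _ hla.le
    exact le_max_right _ _

end Pool.Agent.Helper87.Lang
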